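import Pool.Agent.H64.DsfProof

/-!
# A graph `G` for which `D(G)` is infinite

The graph `G` has nine vertices. It witnesses the negated form of the question.
-/

set_option autoImplicit false

namespace Pool.Agent.Results.MP_a83c81_co.InfiniteD

open Pool.Agent.H64.Dsf

/-- There is a graph `G` (on nine vertices) such that `D(G)` contains infinitely many pairwise
non-isomorphic graphs. -/
theorem result : ∃ (g : ℕ) (G : SimpleGraph (Fin g)) (f : ℕ → Σ n : ℕ, SimpleGraph (Fin n)),
    (∀ i, InD G (f i).2) ∧ ∀ i j, i ≠ j → IsEmpty ((f i).2 ≃g (f j).2) := by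
  obtain ⟨f, h1, h2⟩ := infinite_D
  exact ⟨9, G₀, f, h1, h2⟩

end Pool.Agent.Results.MP_a83c81_co.InfiniteD
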